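import Pool.Agent.W548.MQ.Stm

set_option autoImplicit false

open WithZero IsDedekindDomain

namespace Pool.Agent.W577.MQ

open W548.MQ

universe u

section

variable {L : Type u} [Field L] (v : Valuation L ℤᵐ⁰)

theorem v_ne (a : Lˣ) : v (a : L) ≠ 0 := (Valuation.ne_zero_iff v).2 a.ne_zero

theorem ord_mul (a b : Lˣ) : ord v (a * b) = ord v a + ord v b := by
  unfold ord
  rw [Units.val_mul, map_mul, log_mul (v_ne v a) (v_ne v b)]
  ring

theorem ord_neg (a : Lˣ) : ord v (-a) = ord v a := by
  unfold ord
  rw [Units.val_neg, Valuation.map_neg]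

theorem form_sq {K : Type*} [Field K] (a b : Kˣ) : form (a * b ^ 2) = form a := by
  unfold form
  rw [Ideal.Quotient.eq]
  exact Ideal.subset_span (Rel.sq a b)

theorem form_hyp {K : Type*} [Field K] (a : Kˣ) : form a + form (-a) = 0 := by
  unfold form
  rw [← map_add, Ideal.Quotient.eq_zero_iff_mem]
  exact Ideal.subset_span (Rel.hyp a)

theorem resUnit_mul (x y : Lˣ) (hx : v (x : L) = 1) (hy : v (y : L) = 1)
    (hxy : v ((x * y : Lˣ) : L) = 1) :
    resUnit v (x * y) hxy = resUnit v x hx * resUnit v y hy := by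
  unfold resUnit
  rw [← map_mul]
  congr 1
  apply Units.ext
  apply Subtype.ext
  rw [Units.val_mul]
  rfl

theorem resUnit_neg (x : Lˣ) (hx : v (x : L) = 1) (hx' : v ((-x : Lˣ) : L) = 1) :
    resUnit v (-x) hx' = - resUnit v x hx := by
  apply Units.ext
  unfold resUnit
  rw [Units.val_neg]
  simp only [Units.coe_map, RingHom.toMonoidHom_eq_coe, MonoidHom.coe_coe]
  rw [← map_neg]
  congr 1

theorem resUnit_congr {x y : Lˣ} (h : x = y) (hx : v (x : L) = 1) (hy : v (y : L) = 1) :
    resUnit v x hx = resUnit v y hy := by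
  subst h
  rfl

end

theorem t_R1 : W548.MQ.S_R1.{u} := by
  intro L _ v π hπ
  constructor
  · intro a b
    have h0 : ord v (a * b ^ 2) = ord v a + 2 * ord v b := by
      rw [pow_two, ord_mul, ord_mul]
      ring
    have hodd : Odd (ord v (a * b ^ 2)) ↔ Odd (ord v a) := by
      rw [h0]
      constructor
      · intro h
        have := Odd.sub_even h (even_two_mul (ord v b))
        simpa using this
      · intro h
        exact Odd.add_even h (even_two_mul (ord v b))
    unfold res1
    by_cases h : Odd (ord v a)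
    · rw [if_pos h, if_pos (hodd.2 h)]
      have hua := v_unit_part v π hπ a
      have hub := v_unit_part v π hπ b
      have hub2 : v ((((b * π ^ (- ord v b)) * (b * π ^ (- ord v b)) : Lˣ)) : L) = 1 := by
        rw [Units.val_mul, map_mul, hub, one_mul]
      have heq : a * b ^ 2 * π ^ (- ord v (a * b ^ 2)) =
          (a * π ^ (- ord v a)) * ((b * π ^ (- ord v b)) * (b * π ^ (- ord v b))) := by
        rw [h0, show -(ord v a + 2 * ord v b) = (- ord v a) + ((- ord v b) + (- ord v b)) by ring,
          zpow_add, zpow_add, pow_two]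
        simp only [mul_assoc, mul_left_comm, mul_comm]
      have hall : v (((a * π ^ (- ord v a)) * ((b * π ^ (- ord v b)) * (b * π ^ (- ord v b))) : Lˣ) : L) = 1 := by
        rw [Units.val_mul, map_mul, hua, hub2, one_mul]
      rw [resUnit_congr v heq (v_unit_part v π hπ (a * b ^ 2)) hall, resUnit_mul v _ _ hua hub2,
        resUnit_mul v _ _ hub hub, ← pow_two, form_sq]
    · rw [if_neg h, if_neg (fun h' => h (hodd.1 h'))]
  · intro a
    unfold res1
    by_cases h : Odd (ord v a)
    · have h' : Odd (ord v (-a)) := by rw [ord_neg]; exact h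
      rw [if_pos h, if_pos h']
      have hua := v_unit_part v π hπ a
      have heq : -a * π ^ (- ord v (-a)) = -(a * π ^ (- ord v a)) := by
        rw [ord_neg, neg_mul]
      have hn : v ((-(a * π ^ (- ord v a)) : Lˣ) : L) = 1 := by
        rw [Units.val_neg, Valuation.map_neg, hua]
      rw [resUnit_congr v heq (v_unit_part v π hπ (-a)) hn, resUnit_neg v _ hua, form_hyp]
    · have h' : ¬ Odd (ord v (-a)) := by rw [ord_neg]; exact h
      rw [if_neg h, if_neg h', add_zero]

end Pool.Agent.W577.MQ

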